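import Mathlib
import Pool.Agent.H.MP_01b7fc_pr.B

namespace Pool.Agent.Results.MP_01b7fc_pr.MinFails

open Pool.Agent.H.MP_01b7fc_pr

/-- stationary laws of the ring process with inverse rates `t`; `w p` is the entry at position `p` -/
def Stationary {n : ℕ} [NeZero n] (t : Fin n → ℝ) (π : Equiv.Perm (Fin n) → ℝ) : Prop :=
  (∀ w, 0 ≤ π w) ∧ ∑ w, π w = 1 ∧
    ∀ F : Equiv.Perm (Fin n) → ℝ,
      ∑ w, π w * ∑ a : Fin n,
        (if w a < w (a - 1) then (F (w * Equiv.swap a (a - 1)) - F w) / t (w a) else 0) = 0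

theorem result : ∃ t : Fin 6 → ℝ, (∀ i, 0 < t i) ∧ (∃ π, Stationary t π) ∧
    ∀ π, Stationary t π → ∃ w : Equiv.Perm (Fin 6), w 0 = 0 ∧ w 4 = 1 ∧
      ∀ v : Equiv.Perm (Fin 6), v 0 = 0 → v 4 = 1 →
        List.IsRotated [v 1, v 2, v 3, v 5] [5, 4, 3, 2] → π w < π v := by
  refine ⟨tt, tt_pos, ?_, fun π ⟨p0, p1, hs⟩ => ?_⟩
  · have V0 : ∀ w, 0 ≤ V TP w := fun w => Nat.cast_nonneg _
    have Z : 0 < ∑ w, V TP w :=
      Finset.sum_pos' (fun w _ => V0 w) ⟨1, Finset.mem_univ _, by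
        exact Nat.cast_pos.2 (Nat.pos_of_ne_zero cP0)⟩
    refine ⟨fun w => V TP w / ∑ w, V TP w, fun w => div_nonneg (V0 w) Z.le, ?_, fun F => ?_⟩
    · rw [← Finset.sum_div, div_self Z.ne']
    · simp only [term, div_mul_eq_mul_div, ← Finset.sum_div]
      have := bal F
      simp only [← Finset.sum_div] at this
      rw [this, zero_div]
  · simp only [term] at hs
    let w : Equiv.Perm (Fin 6) := ⟨![0, 5, 4, 2, 1, 3], ![0, 4, 3, 5, 2, 1], by decide, by decide⟩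
    refine ⟨w, rfl, rfl, fun v h0 h4 hr => ?_⟩
    have key : ∀ a b c d : Fin 6, List.IsRotated [a, b, c, d] [5, 4, 3, 2] →
        (a = 5 ∧ b = 4 ∧ c = 3 ∧ d = 2) ∨ (a = 4 ∧ b = 3 ∧ c = 2 ∧ d = 5) ∨
        (a = 3 ∧ b = 2 ∧ c = 5 ∧ d = 4) ∨ (a = 2 ∧ b = 5 ∧ c = 4 ∧ d = 3) := by
      decide +kernel
    rcases key _ _ _ _ hr with ⟨a, b, c, d⟩ | ⟨a, b, c, d⟩ | ⟨a, b, c, d⟩ | ⟨a, b, c, d⟩
    · exact lt_of_cert 5 4 3 2 c0 π p0 p1 (hs _) w rfl rfl rfl rfl rfl rfl v h0 a b c h4 d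
    · exact lt_of_cert 4 3 2 5 c1 π p0 p1 (hs _) w rfl rfl rfl rfl rfl rfl v h0 a b c h4 d
    · exact lt_of_cert 3 2 5 4 c2 π p0 p1 (hs _) w rfl rfl rfl rfl rfl rfl v h0 a b c h4 d
    · exact lt_of_cert 2 5 4 3 c3 π p0 p1 (hs _) w rfl rfl rfl rfl rfl rfl v h0 a b c h4 d

end Pool.Agent.Results.MP_01b7fc_pr.MinFails
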